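import Pool.Agent.Helper52.KP.StB

/-! Project KP, module EVN (written by helper21). -/

set_option autoImplicit false

namespace Pool.Agent.Helper21.KP

open Pool.Agent.Helper52.KP

universe u

private theorem evn_aux {g : Type u} [LieRing g] [LieAlgebra ℂ g] [FiniteDimensional ℂ g]
    [LieAlgebra.IsKilling ℂ g] (x : g) :
    Even (Module.finrank ℂ (LinearMap.range (LieAlgebra.ad ℂ g x : g →ₗ[ℂ] g))) := by
  set A : g →ₗ[ℂ] g := (LieAlgebra.ad ℂ g x : g →ₗ[ℂ] g) with hA
  have hAx : ∀ y, A y = ⁅x, y⁆ := fun y => LieAlgebra.ad_apply ℂ g x y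
  obtain ⟨W, hW⟩ := Submodule.exists_isCompl (LinearMap.ker A)
  have h1 := Submodule.finrank_add_eq_of_isCompl hW
  have h2 := LinearMap.finrank_range_add_finrank_ker A
  have h3 : Module.finrank ℂ (LinearMap.range A) = Module.finrank ℂ W := by omega
  rw [h3]
  set d := Module.finrank ℂ W with hd
  let b : Module.Basis (Fin d) ℂ W := Module.finBasis ℂ W
  let κ := killingForm ℂ g
  have hκ : ∀ y z u : g, κ ⁅y, z⁆ u = κ y ⁅z, u⁆ := fun y z u =>
    LieModule.traceForm_apply_lie_apply ℂ g g y z u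
  let M : Matrix (Fin d) (Fin d) ℂ := fun i j => κ x ⁅(b i : g), (b j : g)⁆
  have hMt : M.transpose = -M := by
    ext i j
    change κ x ⁅(b j : g), (b i : g)⁆ = -(κ x ⁅(b i : g), (b j : g)⁆)
    rw [← lie_skew (b i : g) (b j : g), map_neg]
    simp
  have hdet : M.det ≠ 0 := by
    intro h0
    obtain ⟨v, hv, hMv⟩ := Matrix.exists_mulVec_eq_zero_iff.2 h0
    set w : W := ∑ j, v j • b j with hw
    have hw0 : w ≠ 0 := by
      intro h
      apply hv
      have h5 := b.linearIndependent
      rw [Fintype.linearIndependent_iff] at h5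
      funext j
      exact h5 v h j
    have hwg : (w : g) = ∑ j, v j • (b j : g) := by
      rw [hw]
      push_cast
      rfl
    have hB : ∀ i, κ x ⁅(b i : g), (w : g)⁆ = 0 := by
      intro i
      have h6 : M.mulVec v i = 0 := by rw [hMv]; rfl
      have h7 : κ x ⁅(b i : g), (w : g)⁆ = M.mulVec v i := by
        rw [hwg, lie_sum, map_sum]
        unfold Matrix.mulVec dotProduct
        refine Finset.sum_congr rfl fun j _ => ?_
        rw [lie_smul, map_smul, smul_eq_mul, mul_comm]
      rw [h7, h6]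
    have hWall : ∀ u : W, κ x ⁅(u : g), (w : g)⁆ = 0 := by
      intro u
      have h8 : (u : g) = ∑ j, b.repr u j • (b j : g) := by
        conv_lhs => rw [← b.sum_repr u]
        push_cast
        rfl
      rw [h8, sum_lie, map_sum]
      refine Finset.sum_eq_zero fun j _ => ?_
      rw [smul_lie, map_smul, hB j, smul_zero]
    have hKall : ∀ u ∈ LinearMap.ker A, κ x ⁅u, (w : g)⁆ = 0 := by
      intro u hu
      rw [LinearMap.mem_ker, hAx] at hu
      rw [← hκ, hu, map_zero, LinearMap.zero_apply]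
    have hall : ∀ u : g, κ ⁅x, (w : g)⁆ u = 0 := by
      intro u
      have h9 : u ∈ LinearMap.ker A ⊔ W := by rw [hW.sup_eq_top]; exact Submodule.mem_top
      obtain ⟨a, ha, c, hc, rfl⟩ := Submodule.mem_sup.1 h9
      rw [hκ, ← lie_skew (w : g) (a + c), map_neg, add_lie, map_add, hKall a ha,
        hWall ⟨c, hc⟩, add_zero, neg_zero]
    have hxw : ⁅x, (w : g)⁆ = 0 := (LieAlgebra.IsKilling.killingForm_nondegenerate ℂ g).1 _ hall
    have hwk : (w : g) ∈ LinearMap.ker A := by rw [LinearMap.mem_ker, hAx]; exact hxw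
    have hwb : (w : g) ∈ LinearMap.ker A ⊓ W := ⟨hwk, w.2⟩
    rw [hW.inf_eq_bot, Submodule.mem_bot] at hwb
    exact hw0 (Subtype.ext hwb)
  by_contra hodd
  rw [Nat.not_even_iff_odd] at hodd
  have h10 : M.det = (-1) ^ d * M.det := by
    have h11 := Matrix.det_neg M
    rw [Fintype.card_fin, ← hMt, Matrix.det_transpose] at h11
    exact h11
  rw [hodd.neg_one_pow] at h10
  apply hdet
  have h12 : (2:ℂ) * M.det = 0 := by linear_combination h10
  exact (mul_eq_zero.1 h12).resolve_left two_ne_zero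

theorem hEVN : StEVN.{u} := by
  intro g _ _ _ _ x
  unfold rk
  exact evn_aux x

end Pool.Agent.Helper21.KP
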