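import Pool.Agent.Helper85.KP.StE

/-! Project KP, module EWT (written by helper21). -/

set_option autoImplicit false

namespace Pool.Agent.Helper21.KP

open MeasureTheory Filter Pool.Agent.Helper52.KP Pool.Agent.Helper85.KP
open scoped ContDiff ComplexOrder Topology

private theorem ewt_openU (C : Cone) : IsOpen C.U := by
  have h : Continuous (fun z : Fin C.m → ℂ => ev C.Δ z) := MvPolynomial.continuous_eval _
  exact isOpen_ne.preimage h

private theorem ewt_upos {C : Cone} (hC : Good C) {z : Fin C.m → ℂ} (hz : z ∈ C.U) :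
    0 < C.u z := by
  obtain ⟨a, b, ha, hab⟩ := hC.ubd
  exact lt_of_lt_of_le (mul_pos ha (hC.Xpos z hz)) (hab z hz).1

private theorem ewt_openS1 {C : Cone} (hC : Good C) : IsOpen (S1 C) := by
  have h1 : ContinuousOn C.u C.U := hC.usm.continuousOn
  have h2 := h1.isOpen_inter_preimage (ewt_openU C) (isOpen_Iio (a := (1:ℝ)))
  exact h2

private theorem ewt_KDpos (C : Cone) {D : ℕ} (hD : 0 < D) : 0 < KD C D := by
  unfold KD
  have h1 : (0:ℝ) < D := by exact_mod_cast hD
  have h2 : (0:ℝ) < Real.pi / 2 := by positivity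
  positivity

private theorem ewt_P0 {C : Cone} (hC : Good C) {D N : ℕ} (hD : 0 < D)
    (s : Fin N → MvPolynomial (Fin C.m) ℂ) (lam : Fin N → ℕ) {z : Fin C.m → ℂ} (hz : z ∈ C.U) :
    PP s lam 0 z = KD C D * C.berg D s z * C.u z ^ (2 * D) := by
  unfold PP KD Cone.berg
  have h1 : (D:ℝ) ≠ 0 := by exact_mod_cast hD.ne'
  have h2 : Real.pi / 2 ≠ 0 := by positivity
  have h3 : C.u z ≠ 0 := (ewt_upos hC hz).ne'
  have h4 : (((2 * D + C.m - 1).factorial : ℕ) : ℝ) ≠ 0 := by positivity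
  have h5 : ∑ j, Real.exp (0 * (lam j : ℝ)) * ‖ev (s j) z‖ ^ 2 = ∑ j, ‖ev (s j) z‖ ^ 2 := by
    refine Finset.sum_congr rfl fun j _ => ?_
    rw [zero_mul, Real.exp_zero, one_mul]
  rw [h5]
  have h6 : (D:ℝ) ^ (C.m - 1) ≠ 0 := pow_ne_zero _ h1
  have h7 : (Real.pi / 2) ^ C.m ≠ 0 := pow_ne_zero _ h2
  have h8 : C.u z ^ (2 * D) ≠ 0 := pow_ne_zero _ h3
  generalize (D:ℝ) ^ (C.m - 1) = a at h6 ⊢
  generalize (Real.pi / 2) ^ C.m = b at h7 ⊢
  generalize C.u z ^ (2 * D) = c at h8 ⊢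
  generalize (((2 * D + C.m - 1).factorial : ℕ) : ℝ) = e at h4 ⊢
  field_simp

/-- the main comparison -/
private theorem ewt_cmp {C : Cone} (hC : Good C) (hE : StEPO) {D N : ℕ} (hD : 0 < D)
    {s : Fin N → MvPolynomial (Fin C.m) ℂ} (lam : Fin N → ℕ) (ho : ONB C D s)
    {L : ℝ} (hL : 0 < L) (hl : ∀ j, (lam j : ℝ) ≤ L) {z : Fin C.m → ℂ} (hz : z ∈ C.U)
    {t : ℝ} (ht : 0 ≤ t) :
    0 < C.berg D s z ∧
    C.u z * C.berg D s z ^ ((1:ℝ) / (2 * D)) ≤ psi C D s lam t z ∧
    psi C D s lam t z ≤ C.u z * C.berg D s z ^ ((1:ℝ) / (2 * D)) * Real.exp (t * (L / (2 * D))) := by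
  have hu := ewt_upos hC hz
  have hK := ewt_KDpos C hD
  have hD' : (0:ℝ) < D := by exact_mod_cast hD
  have hE1 := hE C hC D N hD s lam ho.span L hL hl z hz t ht
  have hE0 := hE C hC D N hD s lam ho.span L hL hl z hz 0 le_rfl
  have h0 := ewt_P0 hC hD s lam hz
  have hub : 0 < C.u z ^ (2 * D) := pow_pos hu _
  have hb : 0 < C.berg D s z := by
    have h1 : 0 < KD C D * C.berg D s z * C.u z ^ (2 * D) := by rw [← h0]; exact hE0.1
    have h2 : 0 < KD C D * C.berg D s z := pos_of_mul_pos_left h1 hub.le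
    exact pos_of_mul_pos_right h2 hK.le
  have hal : (0:ℝ) ≤ (1:ℝ) / (2 * D) := by positivity
  have e0 : PP s lam 0 z / KD C D = C.berg D s z * C.u z ^ (2 * D) := by
    rw [h0]
    field_simp
  have e1 : (C.berg D s z * C.u z ^ (2 * D)) ^ ((1:ℝ) / (2 * D)) =
      C.u z * C.berg D s z ^ ((1:ℝ) / (2 * D)) := by
    rw [Real.mul_rpow hb.le hub.le, ← Real.rpow_natCast (C.u z) (2 * D), ← Real.rpow_mul hu.le]
    have e2 : (((2 * D : ℕ)) : ℝ) * (1 / (2 * D)) = 1 := by
      push_cast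
      field_simp
    rw [e2, Real.rpow_one, mul_comm]
  refine ⟨hb, ?_, ?_⟩
  · rw [← e1, ← e0]
    unfold psi
    refine Real.rpow_le_rpow (div_nonneg hE0.1.le hK.le) ?_ hal
    exact div_le_div_of_nonneg_right hE1.2.1 hK.le
  · have e3 : Real.exp (t * (L / (2 * D))) = Real.exp (t * L) ^ ((1:ℝ) / (2 * D)) := by
      rw [← Real.exp_mul]
      congr 1
      field_simp
    rw [← e1, ← e0, e3, ← Real.mul_rpow (div_nonneg hE0.1.le hK.le) (Real.exp_pos _).le]
    unfold psi
    refine Real.rpow_le_rpow (div_nonneg hE1.1.le hK.le) ?_ hal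
    calc PP s lam t z / KD C D ≤ Real.exp (t * L) * PP s lam 0 z / KD C D :=
          div_le_div_of_nonneg_right hE1.2.2.1 hK.le
      _ = PP s lam 0 z / KD C D * Real.exp (t * L) := by ring

theorem hEWT : StBLB → StEUP → StEPO → StVOL → StEIN → StEWT := by
  intro hBLB hEUP hEPO hVOL hEIN C r Λ k N s lam hC hS t ht htl
  have hn := hC.hn
  have hr := hS.hr
  have hΛ := hS.hΛ
  have hDpos : ∀ i, 0 < C.n * r * k i := fun i =>
    Nat.mul_pos (Nat.mul_pos hn hr) (hS.kpos i)
  have hDlim : Tendsto (fun i => C.n * r * k i) atTop atTop := by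
    refine tendsto_atTop_mono (fun i => ?_) hS.klim
    exact Nat.le_mul_of_pos_left _ (Nat.mul_pos hn hr)
  have hn' : (0:ℝ) < C.n := by exact_mod_cast hn
  have hr' : (0:ℝ) < r := by exact_mod_cast hr
  have hΛ' : (0:ℝ) < Λ := by exact_mod_cast hΛ
  have hk' : ∀ i, (0:ℝ) < k i := fun i => by exact_mod_cast hS.kpos i
  set M : ℝ := (Λ:ℝ) / (2 * (C.n * r)) with hM
  have hMpos : 0 < M := by positivity
  -- comparison
  have hcmp : ∀ i, ∀ z ∈ C.U, 0 < C.berg (C.n * r * k i) (s i) z ∧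
      C.u z * C.berg (C.n * r * k i) (s i) z ^ ((1:ℝ) / (2 * ((C.n * r * k i : ℕ) : ℝ))) ≤
        psi C (C.n * r * k i) (s i) (lam i) (t i) z ∧
      psi C (C.n * r * k i) (s i) (lam i) (t i) z ≤
        C.u z * C.berg (C.n * r * k i) (s i) z ^ ((1:ℝ) / (2 * ((C.n * r * k i : ℕ) : ℝ))) *
          Real.exp (t i * M) := by
    intro i z hz
    have h1 := ewt_cmp hC hEPO (hDpos i) (lam i) (hS.onb i) (L := (Λ:ℝ) * k i)
      (mul_pos hΛ' (hk' i)) (fun j => by exact_mod_cast hS.bd i j) hz (ht i)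
    have e1 : (Λ:ℝ) * k i / (2 * ((C.n * r * k i : ℕ) : ℝ)) = M := by
      rw [hM]
      push_cast
      have := (hk' i).ne'
      field_simp
    rw [e1] at h1
    exact h1
  -- lower bound
  obtain ⟨c, hc, hcb⟩ := hBLB C hC
  set c' : ℝ := min c 1 with hc'
  have hc'0 : 0 < c' := lt_min hc one_pos
  have hsc : 0 < Real.sqrt c' := Real.sqrt_pos.2 hc'0
  have hlow : ∀ i, ∀ z ∈ C.U, Real.sqrt c' ≤
      C.berg (C.n * r * k i) (s i) z ^ ((1:ℝ) / (2 * ((C.n * r * k i : ℕ) : ℝ))) := by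
    intro i z hz
    have h1 := hcb (C.n * r * k i) (N i) (hDpos i) (s i) (hS.onb i) z hz
    have h2 : c' ^ (C.n * r * k i) ≤ C.berg (C.n * r * k i) (s i) z :=
      le_trans (pow_le_pow_left₀ hc'0.le (min_le_left _ _) _) h1
    have hDp : (0:ℝ) < ((C.n * r * k i : ℕ) : ℝ) := by exact_mod_cast hDpos i
    have h3 : Real.sqrt c' = (c' ^ (C.n * r * k i)) ^ ((1:ℝ) / (2 * ((C.n * r * k i : ℕ) : ℝ))) := by
      rw [Real.sqrt_eq_rpow, ← Real.rpow_natCast c', ← Real.rpow_mul hc'0.le]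
      congr 1
      field_simp
    rw [h3]
    exact Real.rpow_le_rpow (pow_nonneg hc'0.le _) h2 (by positivity)
  have hpu : ∀ i, ∀ z ∈ C.U, Real.sqrt c' ≤ psi C (C.n * r * k i) (s i) (lam i) (t i) z / C.u z := by
    intro i z hz
    have hu := ewt_upos hC hz
    rw [le_div_iff₀ hu]
    calc Real.sqrt c' * C.u z = C.u z * Real.sqrt c' := mul_comm _ _
      _ ≤ _ := mul_le_mul_of_nonneg_left (hlow i z hz) hu.le
      _ ≤ _ := (hcmp i z hz).2.1
  set B : ℝ := max ((Real.sqrt c')⁻¹) ((Real.sqrt c') ^ (-(C.m:ℝ))) with hB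
  have hB0 : 0 < B := lt_of_lt_of_le (inv_pos.2 hsc) (le_max_left _ _)
  have hwt : ∀ i, ∀ z ∈ C.U, wt C (C.n * r * k i) (s i) (lam i) (t i) z ≤ B := by
    intro i z hz
    refine le_trans ?_ (le_max_right _ _)
    unfold Pool.Agent.Helper85.KP.wt
    have hm : (0:ℝ) < C.m := by
      have h1 := hC.hm
      have h2 : 0 < C.m := by omega
      exact_mod_cast h2
    exact (Real.rpow_le_rpow_iff_of_neg (lt_of_lt_of_le hsc (hpu i z hz)) hsc
      (neg_lt_zero.2 hm)).2 (hpu i z hz)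
  have hwt0 : ∀ i, ∀ z ∈ C.U, 0 ≤ wt C (C.n * r * k i) (s i) (lam i) (t i) z := by
    intro i z hz
    unfold Pool.Agent.Helper85.KP.wt
    exact Real.rpow_nonneg (le_trans hsc.le (hpu i z hz)) _
  -- almost everywhere convergence
  have hex : Tendsto (fun i => Real.exp (t i * M)) atTop (𝓝 1) := by
    have h1 : Tendsto (fun i => t i * M) atTop (𝓝 (0 * M)) := htl.mul_const M
    rw [zero_mul] at h1
    have h2 := (Real.continuous_exp.tendsto 0).comp h1
    rw [Real.exp_zero] at h2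
    exact h2
  have hexp : Tendsto (fun i => (1:ℝ) / (2 * ((C.n * r * k i : ℕ) : ℝ))) atTop (𝓝 0) := by
    have h1 : Tendsto (fun i => ((C.n * r * k i : ℕ) : ℝ)) atTop atTop :=
      tendsto_natCast_atTop_atTop.comp hDlim
    have h2 : Tendsto (fun i => 2 * ((C.n * r * k i : ℕ) : ℝ)) atTop atTop :=
      h1.const_mul_atTop two_pos
    have h3 := h2.inv_tendsto_atTop
    refine h3.congr fun i => ?_
    rw [one_div]
    rfl
  have hpt : ∀ z ∈ C.U, Tendsto (fun i => C.berg (C.n * r * k i) (s i) z) atTop (𝓝 1) →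
      Tendsto (fun i => wt C (C.n * r * k i) (s i) (lam i) (t i) z) atTop (𝓝 1) ∧
      Tendsto (fun i => psi C (C.n * r * k i) (s i) (lam i) (t i) z) atTop (𝓝 (C.u z)) := by
    intro z hz hb
    have hu := ewt_upos hC hz
    have h1 : Tendsto (fun i => C.berg (C.n * r * k i) (s i) z ^
        ((1:ℝ) / (2 * ((C.n * r * k i : ℕ) : ℝ)))) atTop (𝓝 1) := by
      have := hb.rpow hexp (Or.inl one_ne_zero)
      rwa [Real.one_rpow] at this
    have h2 : Tendsto (fun i => C.u z * C.berg (C.n * r * k i) (s i) z ^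
        ((1:ℝ) / (2 * ((C.n * r * k i : ℕ) : ℝ)))) atTop (𝓝 (C.u z)) := by
      have := h1.const_mul (C.u z)
      rwa [mul_one] at this
    have h3 : Tendsto (fun i => C.u z * C.berg (C.n * r * k i) (s i) z ^
        ((1:ℝ) / (2 * ((C.n * r * k i : ℕ) : ℝ))) * Real.exp (t i * M)) atTop (𝓝 (C.u z)) := by
      have := h2.mul hex
      rwa [mul_one] at this
    have h4 : Tendsto (fun i => psi C (C.n * r * k i) (s i) (lam i) (t i) z) atTop (𝓝 (C.u z)) :=
      tendsto_of_tendsto_of_tendsto_of_le_of_le h2 h3 (fun i => (hcmp i z hz).2.1)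
        (fun i => (hcmp i z hz).2.2)
    refine ⟨?_, h4⟩
    have h5 : Tendsto (fun i => psi C (C.n * r * k i) (s i) (lam i) (t i) z / C.u z) atTop (𝓝 1) := by
      have := h4.div_const (C.u z)
      rwa [div_self hu.ne'] at this
    have h6 := h5.rpow (tendsto_const_nhds (x := (-(C.m:ℝ)))) (Or.inl one_ne_zero)
    rw [Real.one_rpow] at h6
    exact h6
  have hae : ∀ᵐ z ∂volume.restrict C.U,
      Tendsto (fun i => wt C (C.n * r * k i) (s i) (lam i) (t i) z) atTop (𝓝 1) ∧
      Tendsto (fun i => psi C (C.n * r * k i) (s i) (lam i) (t i) z) atTop (𝓝 (C.u z)) := by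
    have h1 : ∀ᵐ z ∂volume.restrict C.U, z ∈ C.U := ae_restrict_mem (ewt_openU C).measurableSet
    filter_upwards [h1, hS.ber] with z hz hb
    exact hpt z hz hb
  refine ⟨⟨B, hB0, fun i z hz => ⟨hwt i z hz, ?_⟩⟩, hae, ?_, ?_⟩
  · have hu := ewt_upos hC hz
    have h1 := hpu i z hz
    rw [le_div_iff₀ hu] at h1
    have hp : 0 ≤ psi C (C.n * r * k i) (s i) (lam i) (t i) z :=
      le_trans (mul_nonneg hsc.le hu.le) h1
    calc C.u z = (Real.sqrt c')⁻¹ * (Real.sqrt c' * C.u z) := by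
          rw [← mul_assoc, inv_mul_cancel₀ hsc.ne', one_mul]
      _ ≤ (Real.sqrt c')⁻¹ * psi C (C.n * r * k i) (s i) (lam i) (t i) z :=
          mul_le_mul_of_nonneg_left h1 (inv_pos.2 hsc).le
      _ ≤ B * psi C (C.n * r * k i) (s i) (lam i) (t i) z :=
          mul_le_mul_of_nonneg_right (le_max_left _ _) hp
  · -- dominated convergence
    have hmS : MeasurableSet (S1 C) := (ewt_openS1 hC).measurableSet
    have hfin : C.nu (S1 C) < ⊤ := by
      have h1 := hVOL C hC
      have h2 : S1 C = {z | z ∈ C.U ∧ C.u z < 1} := rfl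
      rw [h2, h1]
      exact ENNReal.ofReal_lt_top
    have hac : (C.nu.restrict (S1 C)) ≪ (volume.restrict C.U) := by
      have h1 : C.nu ≪ (volume : Measure (Fin C.m → ℂ)) := withDensity_absolutelyContinuous _ _
      have h2 : C.nu.restrict (S1 C) ≪ C.nu.restrict C.U :=
        (Measure.restrict_mono (fun z hz => hz.1) le_rfl).absolutelyContinuous
      exact h2.trans (h1.restrict C.U)
    have : IsFiniteMeasure (C.nu.restrict (S1 C)) := ⟨by rw [Measure.restrict_apply_univ]; exact hfin⟩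
    have hlim : Tendsto (fun i => ∫ z, |wt C (C.n * r * k i) (s i) (lam i) (t i) z - 1|
        ∂(C.nu.restrict (S1 C))) atTop (𝓝 (∫ _z, (0:ℝ) ∂(C.nu.restrict (S1 C)))) := by
      refine tendsto_integral_of_dominated_convergence (fun _ => B + 1) ?_ (integrable_const _) ?_ ?_
      · intro i
        have h1 := (hEIN C hC (C.n * r * k i) (N i) (hDpos i) (s i) (lam i) (hS.onb i).span
          (t i) (ht i)).1
        have h2 : AEStronglyMeasurable (wt C (C.n * r * k i) (s i) (lam i) (t i))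
          (C.nu.restrict (S1 C)) := h1.aestronglyMeasurable
        exact (h2.sub aestronglyMeasurable_const).norm
      · intro i
        refine ae_restrict_of_forall_mem hmS fun z hz => ?_
        rw [Real.norm_eq_abs, abs_abs]
        have h1 := hwt i z hz.1
        have h2 := hwt0 i z hz.1
        rw [abs_le]
        constructor <;> linarith
      · have h1 := hac.ae_le hae
        filter_upwards [h1] with z hz
        have h2 := (hz.1.sub_const 1).abs
        rwa [sub_self, abs_zero] at h2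
    rw [integral_zero] at hlim
    exact hlim
  · intro K hK hKc δ hδ
    obtain ⟨Mu, hMu0, hMu⟩ : ∃ Mu : ℝ, 0 < Mu ∧ ∀ z ∈ K, C.u z ≤ Mu := by
      have h1 : ContinuousOn C.u K := hC.usm.continuousOn.mono hK
      obtain ⟨b, hb⟩ := (hKc.image_of_continuousOn h1).bddAbove
      refine ⟨max b 1, lt_of_lt_of_le one_pos (le_max_right _ _), fun z hz => ?_⟩
      exact le_trans (hb ⟨z, hz, rfl⟩) (le_max_left _ _)
    set η : ℝ := Real.log (1 + δ / Mu) with hη
    have hq : 0 < δ / Mu := div_pos hδ hMu0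
    have hη0 : 0 < η := Real.log_pos (by linarith)
    have hηe : Real.exp η = 1 + δ / Mu := Real.exp_log (by linarith)
    have h1 := hDlim.eventually (hEUP C hC K hK hKc η hη0)
    have h2 : ∀ᶠ i in atTop, t i * M < η / 2 := by
      have h3 : Tendsto (fun i => t i * M) atTop (𝓝 (0 * M)) := htl.mul_const M
      rw [zero_mul] at h3
      exact h3.eventually (gt_mem_nhds (by positivity))
    filter_upwards [h1, h2] with i hi1 hi2 z hz
    have hzU := hK hz
    have hu := ewt_upos hC hzU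
    have h4 := hi1 (N i) (s i) (hS.onb i) z hz
    have hDp : (0:ℝ) < ((C.n * r * k i : ℕ) : ℝ) := by exact_mod_cast hDpos i
    have h5 : C.berg (C.n * r * k i) (s i) z ^ ((1:ℝ) / (2 * ((C.n * r * k i : ℕ) : ℝ))) ≤
        Real.exp (η / 2) := by
      have h6 : Real.exp (η / 2) = Real.exp (η * ((C.n * r * k i : ℕ) : ℝ)) ^
          ((1:ℝ) / (2 * ((C.n * r * k i : ℕ) : ℝ))) := by
        rw [← Real.exp_mul]
        congr 1
        field_simp
      rw [h6]
      exact Real.rpow_le_rpow (hcmp i z hzU).1.le h4 (by positivity)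
    calc psi C (C.n * r * k i) (s i) (lam i) (t i) z ≤
        C.u z * C.berg (C.n * r * k i) (s i) z ^ ((1:ℝ) / (2 * ((C.n * r * k i : ℕ) : ℝ))) *
          Real.exp (t i * M) := (hcmp i z hzU).2.2
      _ ≤ C.u z * Real.exp (η / 2) * Real.exp (η / 2) := by
          refine mul_le_mul (mul_le_mul_of_nonneg_left h5 hu.le) (Real.exp_le_exp.2 hi2.le)
            (Real.exp_pos _).le (mul_nonneg hu.le (Real.exp_pos _).le)
      _ = C.u z * Real.exp η := by
          rw [mul_assoc, ← Real.exp_add]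
          congr 2
          ring
      _ = C.u z + C.u z / Mu * δ := by
          rw [hηe]
          ring
      _ ≤ C.u z + δ := by
          have h7 : C.u z / Mu ≤ 1 := (div_le_one hMu0).2 (hMu z hz)
          have h8 : C.u z / Mu * δ ≤ 1 * δ := mul_le_mul_of_nonneg_right h7 hδ.le
          linarith

end Pool.Agent.Helper21.KP
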